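import Pool.Agent.N542.PT.Loc

set_option autoImplicit false

/-! # The monomials with coprime exponents form a balanced family -/

namespace Pool.Agent.U642.WP

open Finset MvPolynomial
open Pool.Agent.N542.PT (Balanced balanced_weight)
open Pool.Agent.Y837.SV (exists_bez)

lemma prod_X_eq {r : ℕ} (e : Fin r → ℕ) :
    (∏ i, X i ^ e i : MvPolynomial (Fin r) ℤ) = monomial (Finsupp.equivFunOnFinite.symm e) 1 := by
  rw [monomial_eq, C_1, one_mul, Finsupp.prod_fintype _ _ (fun i => by simp)]
  rfl

/-- the monomials with coprime exponents -/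
theorem mono_balanced {ι : Type} [Fintype ι] (r : ℕ) (e : ι → Fin r → ℕ)
    (hinj : Function.Injective e) (he : ∀ i, Finset.univ.gcd (e i) = 1) :
    Balanced (fun i => (∏ j, X j ^ e i j : MvPolynomial (Fin r) ℤ)) (fun _ => {0}) ∧
      ∀ i, ∀ k : ℤ, (∏ j, X j ^ e i j : MvPolynomial (Fin r) ℤ) ≠ MvPolynomial.C k := by
  have hsupp : ∀ i, ∀ d ∈ (∏ j, X j ^ e i j : MvPolynomial (Fin r) ℤ).support, ∀ l, d l = e i l := by
    intro i d hd l
    rw [prod_X_eq] at hd
    have h1 := support_monomial_subset hd
    rw [mem_singleton] at h1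
    rw [h1]
    rfl
  apply balanced_weight
  · intro i
    rw [prod_X_eq]
    rw [Ne, monomial_eq_zero]
    exact one_ne_zero
  · intro i
    obtain ⟨w, hw⟩ := exists_bez (e i) (he i)
    refine ⟨w, fun d hd => ?_⟩
    rw [← hw]
    refine sum_congr rfl fun l _ => ?_
    rw [hsupp i d hd l]
  · intro i j hij
    have hne : e i ≠ e j := fun h => hij (hinj h)
    obtain ⟨a, b, hab⟩ : ∃ a b, (e i a : ℤ) * e j b ≠ e i b * e j a := by
      by_contra hcon
      push Not at hcon
      apply hne
      obtain ⟨w, hw⟩ := exists_bez (e i) (he i)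
      obtain ⟨w', hw'⟩ := exists_bez (e j) (he j)
      -- `e j b = c * e i b` with `c = ∑ w a * e j a`
      have h1 : ∀ b, (e j b : ℤ) = (∑ a, w a * (e j a : ℤ)) * e i b := by
        intro b
        rw [sum_mul]
        calc (e j b : ℤ) = (∑ a, w a * (e i a : ℤ)) * e j b := by rw [hw, one_mul]
          _ = ∑ a, w a * (e i a : ℤ) * e j b := sum_mul _ _ _
          _ = _ := sum_congr rfl fun a _ => by
            have := hcon a b
            linear_combination (w a) * this
      have h2 : ∀ b, (e i b : ℤ) = (∑ a, w' a * (e i a : ℤ)) * e j b := by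
        intro b
        rw [sum_mul]
        calc (e i b : ℤ) = (∑ a, w' a * (e j a : ℤ)) * e i b := by rw [hw', one_mul]
          _ = ∑ a, w' a * (e j a : ℤ) * e i b := sum_mul _ _ _
          _ = _ := sum_congr rfl fun a _ => by
            have := hcon b a
            linear_combination (w' a) * this
      obtain ⟨c, hc⟩ : ∃ c : ℤ, c = ∑ a, w a * (e j a : ℤ) := ⟨_, rfl⟩
      obtain ⟨c', hc'⟩ : ∃ c' : ℤ, c' = ∑ a, w' a * (e i a : ℤ) := ⟨_, rfl⟩
      rw [← hc] at h1
      rw [← hc'] at h2
      have h3 : ∃ b, e i b ≠ 0 := by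
        by_contra h0
        push Not at h0
        simp [h0] at hw
      obtain ⟨b, hb⟩ := h3
      have hb0 : (0 : ℤ) < e i b := by
        have : 0 < e i b := Nat.pos_of_ne_zero hb
        exact_mod_cast this
      have h4 : c' * c = 1 := by
        have h5 := h2 b
        rw [h1 b] at h5
        have h6 : (e i b : ℤ) * (c' * c) = e i b * 1 := by linear_combination -h5
        exact mul_left_cancel₀ hb0.ne' h6
      have h7 : 0 ≤ c := by
        by_contra hneg
        push Not at hneg
        have h8 := h1 b
        have h9 : (0 : ℤ) ≤ e j b := Nat.cast_nonneg _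
        nlinarith
      have h8 : c = 1 := by
        rcases Int.isUnit_iff.1 (IsUnit.of_mul_eq_one c' (by rw [mul_comm]; exact h4) : IsUnit c)
          with h | h
        · exact h
        · omega
      funext b
      have := h1 b
      rw [h8, one_mul] at this
      exact_mod_cast this.symm
    refine ⟨fun l => (if l = a then (e j b : ℤ) else 0) - (if l = b then (e j a : ℤ) else 0),
      (e j b : ℤ) * e i a - e j a * e i b, ?_, ?_, ?_⟩
    · intro h
      apply hab
      linear_combination h
    · intro d hd
      have h1 : ∀ l, ((if l = a then (e j b : ℤ) else 0) - (if l = b then (e j a : ℤ) else 0)) *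
          (d l : ℤ) = (if l = a then (e j b : ℤ) * e i l else 0) -
            (if l = b then (e j a : ℤ) * e i l else 0) := by
        intro l
        rw [hsupp i d hd l]
        split_ifs <;> ring
      rw [sum_congr rfl fun l _ => h1 l, sum_sub_distrib]
      simp
    · intro d hd
      have h1 : ∀ l, ((if l = a then (e j b : ℤ) else 0) - (if l = b then (e j a : ℤ) else 0)) *
          (d l : ℤ) = (if l = a then (e j b : ℤ) * e j l else 0) -
            (if l = b then (e j a : ℤ) * e j l else 0) := by
        intro l
        rw [hsupp j d hd l]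
        split_ifs <;> ring
      rw [sum_congr rfl fun l _ => h1 l, sum_sub_distrib]
      simp
      ring

end Pool.Agent.U642.WP
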