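import Pool.Agent.H442R2.KF.Inc
import Pool.Agent.Y951.WP.Main

set_option autoImplicit false

/-! # Incomplete Weil sums along progressions -/

namespace Pool.Agent.U642.WP

open Finset Polynomial

variable {p : ℕ} [Fact p.Prime]

/-- **incomplete Weil sums** of a polynomial of degree `≥ 2` -/
theorem weil_AP (G : (ZMod p)[X]) (hG2 : 2 ≤ G.natDegree) (hGp : G.natDegree < p) (M : ℤ) (N q : ℕ)
    (hq : 1 ≤ q) (hqp : q < p) :
    ‖∑ n ∈ range N, (ZMod.stdAddChar (G.eval ((M + q * n : ℤ) : ZMod p)) : ℂ)‖ ≤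
      G.natDegree * Real.sqrt p * ((N : ℝ) / p + 1 + Real.log p) := by
  have hp' : p.Prime := Fact.out
  have hcop : Nat.Coprime p q := by
    rw [hp'.coprime_iff_not_dvd]
    intro h
    have := Nat.le_of_dvd (by omega) h
    omega
  refine Pool.Agent.H442R2.KF.Inc.completion p q hcop (fun u => (ZMod.stdAddChar (G.eval u) : ℂ))
    (G.natDegree * Real.sqrt p) (by positivity) (fun w => ?_) M N
  have hdeg : (G - C w * X).natDegree = G.natDegree := by
    rw [natDegree_sub_eq_left_of_natDegree_lt]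
    exact lt_of_le_of_lt ((natDegree_C_mul_le w X).trans natDegree_X_le) (by omega)
  have h1 := Pool.Agent.Y951.WP.weil_le p (G - C w * X) (by
    rw [hdeg]
    intro h
    have := Nat.le_of_dvd (by omega) h
    omega) (ZMod.isPrimitive_stdAddChar p)
  rw [hdeg] at h1
  have h2 : ∑ u : ZMod p, (ZMod.stdAddChar (-(u * w)) : ℂ) * (ZMod.stdAddChar (G.eval u) : ℂ) =
      ∑ x : ZMod p, (ZMod.stdAddChar ((G - C w * X).eval x) : ℂ) := by
    refine sum_congr rfl fun u _ => ?_
    rw [← AddChar.map_add_eq_mul]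
    congr 1
    simp only [eval_sub, eval_mul, eval_C, eval_X]
    ring
  rw [h2]
  refine h1.trans ?_
  apply mul_le_mul_of_nonneg_right _ (Real.sqrt_nonneg _)
  exact_mod_cast Nat.sub_le _ _

end Pool.Agent.U642.WP
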