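import Pool.Agent.H373R2.NB.Weyl

set_option autoImplicit false

/-! # Weyl sums modulo a prime along progressions of length `≥ p ^ (1 / d + δ)` -/

namespace Pool.Agent.U642.WP

open Finset Polynomial Filter
open Pool.Agent.Helper602.MK (ee)
open Pool.Agent.H373R2.NB (Ph IW IW_all Ph_poly)

lemma std_eq_ee (p : ℕ) [NeZero p] (z : ℤ) :
    (ZMod.stdAddChar ((z : ℤ) : ZMod p) : ℂ) = ee (1 / (p : ℝ) * (z : ℝ)) := by
  rw [ZMod.stdAddChar_coe]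
  unfold ee
  congr 1
  push_cast
  ring

lemma lift_poly (p : ℕ) [Fact p.Prime] (G : (ZMod p)[X]) :
    ∃ h : ℤ[X], h.map (Int.castRingHom (ZMod p)) = G ∧ h.natDegree = G.natDegree := by
  have h1 : G ∈ lifts (Int.castRingHom (ZMod p)) := by
    rw [mem_lifts]
    exact Polynomial.map_surjective (Int.castRingHom (ZMod p)) (ZMod.ringHom_surjective _) G
  obtain ⟨h, h2, h3⟩ := exists_degree_eq_of_mem_lifts h1
  exact ⟨h, h2, natDegree_eq_of_degree_eq h3⟩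

/-- one degree -/
lemma weyl_one (d : ℕ) (hd : 1 ≤ d) : ∃ c m : ℕ, 1 ≤ c ∧
    ∀ (p : ℕ) [Fact p.Prime] (G : (ZMod p)[X]), G.natDegree = d → d < p →
    ∀ (M : ℤ) (N q : ℕ) (u : ℝ), 1 ≤ q → q < p → 1 ≤ N → 1 ≤ u →
    (N : ℝ) ≤ u * ‖∑ n ∈ range N, (ZMod.stdAddChar (G.eval ((M + q * n : ℤ) : ZMod p)) : ℂ)‖ →
    c * u ^ m < p → (N : ℝ) ^ d ≤ p * (c * u ^ m) := by
  obtain ⟨c, m, hc, hI⟩ := IW_all d hd
  refine ⟨c, m, hc, ?_⟩
  intro p hp G hG hdp M N q u hq hqp hN hu hS hcu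
  have hp' : p.Prime := Fact.out
  have hp0 : (0 : ℝ) < p := by exact_mod_cast hp'.pos
  obtain ⟨h, h1, h2⟩ := lift_poly p G
  rw [hG] at h2
  have hq0 : (q : ℤ) ≠ 0 := by exact_mod_cast (by omega : q ≠ 0)
  have hlin : (C (q : ℤ) * X + C M).natDegree = 1 := natDegree_linear hq0
  have hlc : (C (q : ℤ) * X + C M).leadingCoeff = (q : ℤ) := leadingCoeff_linear hq0
  obtain ⟨f, hf⟩ : ∃ f : ℤ[X], f = h.comp (C (q : ℤ) * X + C M) := ⟨_, rfl⟩
  have hfd : f.natDegree = d := by rw [hf, natDegree_comp, hlin, mul_one, h2]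
  have hcoef : f.coeff d = h.coeff d * (q : ℤ) ^ d := by
    have h3 := coeff_comp_degree_mul_degree (p := h) (q := C (q : ℤ) * X + C M) (by rw [hlin]; norm_num)
    rw [hlin, mul_one, hlc, h2] at h3
    rw [hf, h3, leadingCoeff, h2]
  have hph := Ph_poly d f hfd.le (1 / (p : ℝ))
  obtain ⟨q', hq1, hq2, a, ha⟩ := hI N u _ _ hN hu hph (hS.trans (le_of_eq (by
    congr 2
    refine sum_congr rfl fun n _ => ?_
    have h4 : G.eval ((M + q * n : ℤ) : ZMod p) = ((f.eval (n : ℤ) : ℤ) : ZMod p) := by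
      rw [hf, eval_comp, ← h1, eval_map]
      simp only [eval_add, eval_mul, eval_C, eval_X]
      have h5 : ((M + q * n : ℤ) : ZMod p) = (Int.castRingHom (ZMod p)) (q * n + M) := by
        simp [add_comm]
      rw [h5, Polynomial.eval₂_at_apply]
      rfl
    rw [h4, std_eq_ee])))
  -- the numerator
  have hlcp : ¬ (p : ℤ) ∣ h.coeff d := by
    intro hdvd
    have h5 : ((h.coeff d : ℤ) : ZMod p) = 0 := (ZMod.intCast_zmod_eq_zero_iff_dvd _ _).2 hdvd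
    have h6 : G.coeff d = 0 := by
      rw [← h1, coeff_map]
      exact h5
    have h7 : G.leadingCoeff = 0 := by rw [leadingCoeff, hG]; exact h6
    rw [leadingCoeff_eq_zero] at h7
    rw [h7, natDegree_zero] at hG
    omega
  have hpi : Prime (p : ℤ) := Nat.prime_iff_prime_int.mp hp'
  have hq'p : ¬ (p : ℤ) ∣ (q' : ℤ) := by
    intro hdvd
    have h5 := Nat.le_of_dvd (by omega) (Int.natCast_dvd_natCast.1 hdvd)
    have h6 : (p : ℝ) ≤ q' := by exact_mod_cast h5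
    linarith
  have hqp' : ¬ (p : ℤ) ∣ (q : ℤ) := by
    intro hdvd
    have h5 := Nat.le_of_dvd (by omega) (Int.natCast_dvd_natCast.1 hdvd)
    omega
  have hfac : ¬ (p : ℤ) ∣ ((d.factorial : ℕ) : ℤ) := by
    intro hdvd
    have h5 := (hp'.dvd_factorial).1 (Int.natCast_dvd_natCast.1 hdvd)
    omega
  obtain ⟨B, hB⟩ : ∃ B : ℤ, B = q' * (((d.factorial : ℕ) : ℤ) * f.coeff d) := ⟨_, rfl⟩
  have hBp : ¬ (p : ℤ) ∣ B := by
    rw [hB, hcoef]
    intro hdvd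
    rcases hpi.dvd_or_dvd hdvd with h5 | h5
    · exact hq'p h5
    rcases hpi.dvd_or_dvd h5 with h6 | h6
    · exact hfac h6
    rcases hpi.dvd_or_dvd h6 with h7 | h7
    · exact hlcp h7
    exact hqp' (hpi.dvd_of_dvd_pow h7)
  have hBa : B - a * p ≠ 0 := by
    intro h5
    apply hBp
    have h6 : B = a * p := by linarith
    rw [h6]
    exact dvd_mul_left _ _
  have h8 : (1 : ℝ) ≤ |((B - a * p : ℤ) : ℝ)| := by
    have := Int.one_le_abs hBa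
    exact_mod_cast this
  have h9 : (q' : ℝ) * (1 / (p : ℝ) * ((d.factorial : ℝ) * (f.coeff d : ℤ))) - a =
      ((B - a * p : ℤ) : ℝ) / p := by
    rw [hB]
    push_cast
    field_simp
  rw [h9, abs_div, abs_of_pos hp0] at ha
  have hN0 : (0 : ℝ) < N := by exact_mod_cast hN
  have h10 : 1 / (p : ℝ) ≤ c * u ^ m / (N : ℝ) ^ d := by
    refine le_trans ?_ ha
    gcongr
  rw [div_le_div_iff₀ hp0 (by positivity)] at h10
  linarith

/-- **Weyl sums modulo a prime** along progressions of length `≥ p ^ (1 / d + δ)`: a power saving. -/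
theorem weyl_AP (k : ℕ) (δ : ℝ) (hδ : 0 < δ) : ∃ η : ℝ, 0 < η ∧ ∀ᶠ P : ℝ in atTop,
    ∀ (p : ℕ) [Fact p.Prime], (p : ℝ) = P → ∀ (G : (ZMod p)[X]), 1 ≤ G.natDegree →
    G.natDegree ≤ k → ∀ (M : ℤ) (N q : ℕ), 1 ≤ q → q < p →
    (p : ℝ) ^ (1 / (G.natDegree : ℝ) + δ) ≤ N →
    ‖∑ n ∈ range N, (ZMod.stdAddChar (G.eval ((M + q * n : ℤ) : ZMod p)) : ℂ)‖ ≤
      N * (p : ℝ) ^ (-η) := by
  classical
  have hex : ∀ d : ℕ, ∃ c m : ℕ, 1 ≤ c ∧ (1 ≤ d →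
    ∀ (p : ℕ) [Fact p.Prime] (G : (ZMod p)[X]), G.natDegree = d → d < p →
    ∀ (M : ℤ) (N q : ℕ) (u : ℝ), 1 ≤ q → q < p → 1 ≤ N → 1 ≤ u →
    (N : ℝ) ≤ u * ‖∑ n ∈ range N, (ZMod.stdAddChar (G.eval ((M + q * n : ℤ) : ZMod p)) : ℂ)‖ →
    c * u ^ m < p → (N : ℝ) ^ d ≤ p * (c * u ^ m)) := by
    intro d
    by_cases hd : 1 ≤ d
    · obtain ⟨c, m, hc, h⟩ := weyl_one d hd
      exact ⟨c, m, hc, fun _ => h⟩
    · exact ⟨1, 1, le_rfl, fun h => absurd h hd⟩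
  choose c m hc hW using hex
  obtain ⟨A, hA⟩ : ∃ A : ℕ, A = ∑ d ∈ range (k + 1), c d := ⟨_, rfl⟩
  obtain ⟨B, hB⟩ : ∃ B : ℕ, B = ∑ d ∈ range (k + 1), m d := ⟨_, rfl⟩
  obtain ⟨δ', hδ'⟩ : ∃ δ' : ℝ, δ' = min δ 1 := ⟨_, rfl⟩
  have hδ'0 : 0 < δ' := by rw [hδ']; positivity
  have hδ'1 : δ' ≤ 1 := by rw [hδ']; exact min_le_right _ _
  have hδ'δ : δ' ≤ δ := by rw [hδ']; exact min_le_left _ _
  obtain ⟨η, hη⟩ : ∃ η : ℝ, η = δ' / (2 * (B + 1)) := ⟨_, rfl⟩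
  have hB0 : (0 : ℝ) ≤ B := Nat.cast_nonneg _
  have hη0 : 0 < η := by rw [hη]; positivity
  have hηB : η * B ≤ δ' / 2 := by
    have h1 : η * (B + 1) = δ' / 2 := by rw [hη]; field_simp
    nlinarith
  refine ⟨η, hη0, ?_⟩
  have hev : ∀ᶠ P : ℝ in atTop, (A : ℝ) * P ^ (δ' / 2) < P ^ δ' := by
    have h1 : Tendsto (fun P : ℝ => P ^ (δ' / 2)) atTop atTop := tendsto_rpow_atTop (by positivity)
    filter_upwards [h1.eventually_gt_atTop (A : ℝ), eventually_gt_atTop (0 : ℝ)] with P hP hP0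
    have h2 : 0 < P ^ (δ' / 2) := Real.rpow_pos_of_pos hP0 _
    calc (A : ℝ) * P ^ (δ' / 2) < P ^ (δ' / 2) * P ^ (δ' / 2) := by gcongr
      _ = P ^ δ' := by rw [← Real.rpow_add hP0]; congr 1; ring
  filter_upwards [hev, eventually_gt_atTop (1 : ℝ), eventually_gt_atTop (k : ℝ)] with P h1 hP1 hPk
  intro p hp hpP G hG1 hGk M N q hq hqp hN
  subst hpP
  have hp0 : (0 : ℝ) < p := by linarith
  obtain ⟨d, hd⟩ : ∃ d, G.natDegree = d := ⟨_, rfl⟩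
  rw [hd] at hG1 hGk hN
  have hdp : d < p := by
    have : (d : ℝ) < p := lt_of_le_of_lt (by exact_mod_cast hGk) hPk
    exact_mod_cast this
  have hd1 : (1 : ℝ) ≤ d := by exact_mod_cast hG1
  have hmono : ∀ x y : ℝ, x ≤ y → (p : ℝ) ^ x ≤ (p : ℝ) ^ y := fun x y h =>
    Real.rpow_le_rpow_of_exponent_le hP1.le h
  have hcA : (c d : ℝ) ≤ A := by
    rw [hA]
    exact_mod_cast single_le_sum (f := fun d => c d) (fun _ _ => Nat.zero_le _)
      (mem_range.2 (by omega))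
  have hmB : m d ≤ B := by
    rw [hB]
    exact single_le_sum (f := fun d => m d) (fun _ _ => Nat.zero_le _) (mem_range.2 (by omega))
  by_contra hcon
  push Not at hcon
  have hNpos : (0 : ℝ) < N := lt_of_lt_of_le (Real.rpow_pos_of_pos hp0 _) hN
  have hN1 : 1 ≤ N := by exact_mod_cast hNpos
  have hu1 : (1 : ℝ) ≤ (p : ℝ) ^ η := Real.one_le_rpow hP1.le hη0.le
  have hum : (c d : ℝ) * ((p : ℝ) ^ η) ^ (m d) ≤ A * (p : ℝ) ^ (δ' / 2) := by
    apply mul_le_mul hcA _ (by positivity) (Nat.cast_nonneg _)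
    calc ((p : ℝ) ^ η) ^ (m d) ≤ ((p : ℝ) ^ η) ^ B := pow_le_pow_right₀ hu1 hmB
      _ = (p : ℝ) ^ (η * B) := by rw [← Real.rpow_natCast, ← Real.rpow_mul hp0.le]
      _ ≤ _ := hmono _ _ hηB
  have hlt : (c d : ℝ) * ((p : ℝ) ^ η) ^ (m d) < (p : ℝ) ^ δ' := lt_of_le_of_lt hum h1
  have h2 := hW d hG1 p G hd hdp M N q ((p : ℝ) ^ η) hq hqp hN1 hu1 (by
    have h3 : (p : ℝ) ^ η * (N * (p : ℝ) ^ (-η)) = N := by
      have h4 : (p : ℝ) ^ η * (p : ℝ) ^ (-η) = 1 := by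
        rw [← Real.rpow_add hp0]; simp
      calc (p : ℝ) ^ η * (N * (p : ℝ) ^ (-η)) = N * ((p : ℝ) ^ η * (p : ℝ) ^ (-η)) := by ring
        _ = N := by rw [h4, mul_one]
    have h5 := mul_le_mul_of_nonneg_left hcon.le (by positivity : (0 : ℝ) ≤ (p : ℝ) ^ η)
    rw [h3] at h5
    exact h5) (lt_of_lt_of_le hlt (by
      calc (p : ℝ) ^ δ' ≤ (p : ℝ) ^ (1 : ℝ) := hmono _ _ hδ'1
        _ = p := Real.rpow_one _))
  have h3 : (p : ℝ) * (p : ℝ) ^ δ' ≤ (N : ℝ) ^ d := by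
    calc (p : ℝ) * (p : ℝ) ^ δ' = (p : ℝ) ^ (1 + δ') := by
          rw [Real.rpow_add hp0, Real.rpow_one]
      _ ≤ (p : ℝ) ^ ((1 / (d : ℝ) + δ) * d) := by
          apply hmono
          have : (1 / (d : ℝ) + δ) * d = 1 + δ * d := by field_simp
          rw [this]
          nlinarith
      _ = ((p : ℝ) ^ (1 / (d : ℝ) + δ)) ^ d := by
          rw [Real.rpow_mul hp0.le, Real.rpow_natCast]
      _ ≤ (N : ℝ) ^ d := pow_le_pow_left₀ (by positivity) hN d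
  have h4 : (p : ℝ) * (c d * ((p : ℝ) ^ η) ^ (m d)) < p * (p : ℝ) ^ δ' := by gcongr
  linarith

end Pool.Agent.U642.WP
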