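import Pool.Agent.U642.WP.Sol
import Pool.Agent.U642.WP.Weyl
import Pool.Agent.U642.WP.Weil

set_option autoImplicit false

/-! # The two regimes: long intervals (Weil) and short intervals (Weyl) -/

namespace Pool.Agent.U642.WP

open Finset Polynomial Filter
open Pool.Agent.N647.FG (AP AP_one AP_card AP_eq AP_ends)
open Pool.Agent.W147.PS (ff ev_pow)
open Pool.Agent.N542.PT (Crit WellDist Good)

lemma AP_sum (M : ℤ) (L q : ℕ) (hq : 1 ≤ q) (ρ : ℤ) : ∃ (M' : ℤ) (N : ℕ),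
    |(N : ℝ) - (L : ℝ) / q| ≤ 1 ∧
    ∀ φ : ℤ → ℂ, ∑ x ∈ AP M L q ρ, φ x = ∑ n ∈ range N, φ (M' + q * n) := by
  obtain ⟨A, N, h1, h2, h3⟩ := AP_ends M L q hq ρ
  refine ⟨(A + 1) * q + ρ, N, h3, fun φ => ?_⟩
  rw [AP_eq M L q hq, sum_map, h1, h2]
  symm
  refine sum_bij (fun n _ => A + 1 + (n : ℤ)) ?_ ?_ ?_ ?_
  · intro n hn
    rw [mem_range] at hn
    rw [mem_Ioc]
    constructor
    · omega
    · omega
  · intro a _ b _ h
    omega
  · intro k hk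
    rw [mem_Ioc] at hk
    refine ⟨(k - (A + 1)).toNat, ?_, ?_⟩
    · rw [mem_range]
      omega
    · omega
  · intro n _
    show φ ((A + 1) * q + ρ + q * n) = φ ((A + 1 + n) * q + ρ)
    congr 1
    ring

open scoped Classical in
/-- long intervals -/
theorem regime_weil {ι : Type} (r m : ℕ) (F : ι → MvPolynomial (Fin r) ℤ) (hF : Crit r F)
    (δ : ℝ) (hδ : 0 < δ) (hδ1 : δ ≤ 1) :
    ∃ κ : ℝ, 0 < κ ∧ ∀ᶠ P : ℝ in atTop, ∀ (p : ℕ) [Fact p.Prime], (p : ℝ) = P →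
    ∀ (g : Fin m → Fin r → (ZMod p)[X]) (a : Fin m → ZMod p) (M : Fin r → ℤ) (L : Fin r → ℕ),
    (∀ t : Fin m → ZMod p, t ≠ 0 → ∀ j, 2 ≤ (comb g t j).natDegree ∧
      ((comb g t j).natDegree : ℝ) ≤ (p : ℝ) ^ (δ / (8 * (r + 1)))) →
    (∀ j, (p : ℝ) ^ δ ≤ L j ∧ L j ≤ p) →
    (p : ℝ) ^ ((r : ℝ) / 2 + m + δ) ≤ ∏ j, (L j : ℝ) →
    (∏ j, (L j : ℝ)) / (p : ℝ) ^ ((m : ℝ) + δ) ≤
      (((sol g a (fun j => Ioc (M j) (M j + L j))).filter
        (fun x => Good F (κ * ff p) ((p : ℝ) ^ δ) x)).card : ℝ) := by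
  obtain ⟨κ, hκ, h⟩ := main_of r m F hF (δ / 2) (by positivity) (by linarith)
  refine ⟨κ, hκ, ?_⟩
  have e1 : ∀ᶠ x : ℝ in atTop, (Real.log x + 3) ^ r ≤ x ^ (δ / 8) := by
    have h1 : (fun x : ℝ => (Real.log x + 3) ^ r) =o[atTop] fun x : ℝ => x ^ (δ / 8) := by
      have h2 : (fun x : ℝ => (Real.log x + 3)) =O[atTop] Real.log :=
        (Asymptotics.isBigO_refl _ _).add (Real.isLittleO_const_log_atTop (c := 3)).isBigO
      have h4 : (fun x : ℝ => Real.log x ^ r) =o[atTop] fun x : ℝ => x ^ (δ / 8) := by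
        have h5 := isLittleO_log_rpow_rpow_atTop (s := δ / 8) (r : ℝ) (by positivity)
        refine h5.congr' ?_ (Filter.EventuallyEq.refl _ _)
        filter_upwards with x
        rw [Real.rpow_natCast]
      exact (h2.pow r).trans_isLittleO h4
    have h2 := h1.def (show (0 : ℝ) < 1 by norm_num)
    filter_upwards [h2, eventually_gt_atTop (1 : ℝ)] with x hx hx1
    have h3 : 0 ≤ Real.log x := Real.log_nonneg hx1.le
    rw [Real.norm_of_nonneg (by positivity), Real.norm_of_nonneg (by positivity), one_mul] at hx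
    exact hx
  filter_upwards [h, e1, eventually_gt_atTop (1 : ℝ)] with P h g1 g2
  intro p hp hpP g a M L hdeg hL hV
  subst hpP
  have hp1 : (1 : ℝ) < p := g2
  have hp0 : (0 : ℝ) < p := by linarith
  have hmono : ∀ x y : ℝ, x ≤ y → (p : ℝ) ^ x ≤ (p : ℝ) ^ y := fun x y h =>
    Real.rpow_le_rpow_of_exponent_le hp1.le h
  have hlog : 0 ≤ Real.log p := Real.log_nonneg hp1.le
  have hlt1 : ∀ x : ℝ, x < 1 → (p : ℝ) ^ x < p := fun x hx => by
    calc (p : ℝ) ^ x < (p : ℝ) ^ (1 : ℝ) := Real.rpow_lt_rpow_of_exponent_lt hp1 hx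
      _ = p := Real.rpow_one _
  have hr0 : (0 : ℝ) ≤ r := Nat.cast_nonneg _
  have hfr : δ / (8 * ((r : ℝ) + 1)) < 1 := by
    rw [div_lt_one (by positivity)]
    nlinarith
  have hfr2 : δ / (8 * ((r : ℝ) + 1)) * r ≤ δ / 8 := by
    have h1 : δ / (8 * ((r : ℝ) + 1)) * (r + 1) = δ / 8 := by field_simp
    have h2 : 0 ≤ δ / (8 * ((r : ℝ) + 1)) := by positivity
    nlinarith
  have key := h p rfl g a M L (fun j => (hmono _ _ (by linarith)).trans (hL j).1) (by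
    intro q hq hqp ρ t ht
    have hqp' : q < p := by
      have : (q : ℝ) < p := lt_of_le_of_lt hqp (hlt1 _ (by linarith))
      exact_mod_cast this
    have hqR : (1 : ℝ) ≤ q := by exact_mod_cast hq
    have hB : ∀ j, ‖∑ x ∈ AP (M j) (L j) q (ρ j),
        (ZMod.stdAddChar ((comb g t j).eval ((x : ℤ) : ZMod p)) : ℂ)‖ ≤
        (p : ℝ) ^ (δ / (8 * ((r : ℝ) + 1))) * (p : ℝ) ^ (1 / 2 : ℝ) * (Real.log p + 3) := by
      intro j
      obtain ⟨M', N, hN, hsum⟩ := AP_sum (M j) (L j) q hq (ρ j)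
      rw [hsum]
      obtain ⟨hd2, hdp⟩ := hdeg t ht j
      have hdp' : (comb g t j).natDegree < p := by
        have : ((comb g t j).natDegree : ℝ) < p := lt_of_le_of_lt hdp (hlt1 _ hfr)
        exact_mod_cast this
      have h1 := weil_AP (comb g t j) hd2 hdp' M' N q hq hqp'
      have hLp : (L j : ℝ) ≤ p := by exact_mod_cast (hL j).2
      have h2 : (N : ℝ) / p ≤ 2 := by
        rw [div_le_iff₀ hp0]
        have h3 := (abs_le.mp hN).2
        have h4 : (L j : ℝ) / q ≤ L j := div_le_self (Nat.cast_nonneg _) hqR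
        linarith
      refine h1.trans ?_
      rw [← Real.sqrt_eq_rpow]
      apply mul_le_mul _ (by linarith) (by positivity) (by positivity)
      exact mul_le_mul_of_nonneg_right hdp (Real.sqrt_nonneg _)
    refine (prod_le_prod (fun j _ => norm_nonneg _) (fun j _ => hB j)).trans ?_
    rw [prod_const, card_univ, Fintype.card_fin, mul_pow, mul_pow]
    have h1 : ((p : ℝ) ^ (δ / (8 * ((r : ℝ) + 1)))) ^ r ≤ (p : ℝ) ^ (δ / 8) := by
      rw [← Real.rpow_natCast, ← Real.rpow_mul hp0.le]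
      exact hmono _ _ hfr2
    have h2 : ((p : ℝ) ^ (1 / 2 : ℝ)) ^ r = (p : ℝ) ^ ((r : ℝ) / 2) := by
      rw [← Real.rpow_natCast, ← Real.rpow_mul hp0.le]
      congr 1
      ring
    rw [h2]
    calc ((p : ℝ) ^ (δ / (8 * ((r : ℝ) + 1)))) ^ r * (p : ℝ) ^ ((r : ℝ) / 2) * (Real.log p + 3) ^ r
        ≤ (p : ℝ) ^ (δ / 8) * (p : ℝ) ^ ((r : ℝ) / 2) * (p : ℝ) ^ (δ / 8) := by gcongr
      _ = (p : ℝ) ^ ((r : ℝ) / 2 + δ / 4) := by
          rw [← Real.rpow_add hp0, ← Real.rpow_add hp0]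
          congr 1
          ring
      _ ≤ (p : ℝ) ^ ((r : ℝ) / 2 + δ / 2) := hmono _ _ (by linarith)
      _ = (p : ℝ) ^ ((r : ℝ) / 2 + m + δ) * (p : ℝ) ^ (-((m : ℝ) + δ / 2)) := by
          rw [← Real.rpow_add hp0]
          congr 1
          ring
      _ ≤ (∏ j, (L j : ℝ)) * (p : ℝ) ^ (-((m : ℝ) + δ / 2)) := by gcongr)
  have hV0 : 0 ≤ ∏ j, (L j : ℝ) := prod_nonneg fun j _ => Nat.cast_nonneg _
  have hle : ((((sol g a (fun j => Ioc (M j) (M j + L j))).filter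
        (fun x => Good F (κ * ff p) ((p : ℝ) ^ (δ / 2)) x)).card : ℕ) : ℝ) ≤
      (((sol g a (fun j => Ioc (M j) (M j + L j))).filter
        (fun x => Good F (κ * ff p) ((p : ℝ) ^ δ) x)).card : ℝ) := by
    rw [Nat.cast_le]
    apply card_le_card
    intro x hx
    rw [mem_filter] at hx ⊢
    refine ⟨hx.1, fun j n hn => ?_⟩
    obtain ⟨l, hl, hl2, hl3⟩ := hx.2 j n hn
    exact ⟨l, hl, hl2.trans (hmono _ _ (by linarith)), hl3⟩
  refine le_trans ?_ (key.trans hle)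
  have h1 : (p : ℝ) ^ ((m : ℝ) + δ / 2) ≤ (p : ℝ) ^ ((m : ℝ) + δ) := hmono _ _ (by linarith)
  have h2 : 0 < (p : ℝ) ^ ((m : ℝ) + δ / 2) := Real.rpow_pos_of_pos hp0 _
  exact div_le_div_of_nonneg_left hV0 h2 h1

open scoped Classical in
/-- short intervals -/
theorem regime_weyl (m k : ℕ) (hm : 1 ≤ m) (δ : ℝ) (hδ : 0 < δ) (hδ1 : δ ≤ 1) :
    ∃ r₀ : ℕ, ∀ r : ℕ, r₀ ≤ r → ∀ {ι : Type} (F : ι → MvPolynomial (Fin r) ℤ), Crit r F →
    ∃ κ : ℝ, 0 < κ ∧ ∀ᶠ P : ℝ in atTop, ∀ (p : ℕ) [Fact p.Prime], (p : ℝ) = P →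
    ∀ (g : Fin m → Fin r → (ZMod p)[X]) (a : Fin m → ZMod p) (M : Fin r → ℤ) (L : Fin r → ℕ),
    (∀ t : Fin m → ZMod p, t ≠ 0 → ∀ j, 1 ≤ (comb g t j).natDegree ∧ (comb g t j).natDegree ≤ k ∧
      (p : ℝ) ^ (1 / ((comb g t j).natDegree : ℝ) + δ) ≤ L j) →
    (∏ j, (L j : ℝ)) / (p : ℝ) ^ ((m : ℝ) + δ) ≤
      (((sol g a (fun j => Ioc (M j) (M j + L j))).filter
        (fun x => Good F (κ * ff p) ((p : ℝ) ^ δ) x)).card : ℝ) := by
  obtain ⟨η, hη, hW⟩ := weyl_AP k (δ / 2) (by positivity)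
  obtain ⟨r₀, hr₀⟩ := exists_nat_ge ((m + 2) / η)
  refine ⟨r₀, fun r hr ι F hF => ?_⟩
  have hrη : (m : ℝ) + 2 ≤ r * η := by
    have h1 : ((m : ℝ) + 2) / η ≤ r := hr₀.trans (by exact_mod_cast hr)
    rwa [div_le_iff₀ hη] at h1
  obtain ⟨κ, hκ, h⟩ := main_of r m F hF δ hδ hδ1
  refine ⟨κ, hκ, ?_⟩
  filter_upwards [h, hW, eventually_ge_atTop ((2 : ℝ) ^ r), eventually_gt_atTop (1 : ℝ),
    ev_pow 0 (δ / 4) 2 (by positivity)] with P h g1 g2 g3 g4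
  intro p hp hpP g a M L hdeg
  subst hpP
  have hp1 : (1 : ℝ) < p := g3
  have hp0 : (0 : ℝ) < p := by linarith
  rw [Real.rpow_zero, mul_one] at g4
  have hmono : ∀ x y : ℝ, x ≤ y → (p : ℝ) ^ x ≤ (p : ℝ) ^ y := fun x y h =>
    Real.rpow_le_rpow_of_exponent_le hp1.le h
  have hone : (1 : Fin m → ZMod p) ≠ 0 := by
    intro h0
    have := congrFun h0 ⟨0, hm⟩
    simp at this
  refine h p rfl g a M L (fun j => ?_) ?_
  · refine le_trans (hmono _ _ ?_) (hdeg 1 hone j).2.2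
    have : (0 : ℝ) ≤ 1 / ((comb g 1 j).natDegree : ℝ) := by positivity
    linarith
  intro q hq hqp ρ t ht
  have hqR : (1 : ℝ) ≤ q := by exact_mod_cast hq
  have hq0 : (0 : ℝ) < q := by linarith
  have hqp' : q < p := by
    have : (q : ℝ) < p := lt_of_le_of_lt hqp (by
      calc (p : ℝ) ^ (δ / 4) < (p : ℝ) ^ (1 : ℝ) :=
            Real.rpow_lt_rpow_of_exponent_lt hp1 (by linarith)
        _ = p := Real.rpow_one _)
    exact_mod_cast this
  have hB : ∀ j, ‖∑ x ∈ AP (M j) (L j) q (ρ j),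
      (ZMod.stdAddChar ((comb g t j).eval ((x : ℤ) : ZMod p)) : ℂ)‖ ≤
      2 * L j * (p : ℝ) ^ (-η) := by
    intro j
    obtain ⟨M', N, hN, hsum⟩ := AP_sum (M j) (L j) q hq (ρ j)
    rw [hsum]
    obtain ⟨hd1, hdk, hL⟩ := hdeg t ht j
    obtain ⟨e, he⟩ : ∃ e : ℝ, e = 1 / ((comb g t j).natDegree : ℝ) := ⟨_, rfl⟩
    have he0 : 0 ≤ e := by rw [he]; positivity
    rw [← he] at hL
    have hN2 := abs_le.mp hN
    have h2 : (p : ℝ) ^ (e + δ / 2) ≤ N := by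
      have h3 : (p : ℝ) ^ (e + δ / 2) * 2 ≤ (L j : ℝ) / q := by
        rw [le_div_iff₀ hq0]
        calc (p : ℝ) ^ (e + δ / 2) * 2 * q ≤
              (p : ℝ) ^ (e + δ / 2) * (p : ℝ) ^ (δ / 4) * (p : ℝ) ^ (δ / 4) := by gcongr
          _ = (p : ℝ) ^ (e + δ) := by
              rw [← Real.rpow_add hp0, ← Real.rpow_add hp0]
              congr 1
              ring
          _ ≤ L j := hL
      have h4 : 1 ≤ (p : ℝ) ^ (e + δ / 2) := Real.one_le_rpow hp1.le (by positivity)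
      linarith [hN2.1]
    have h1 := g1 p rfl (comb g t j) hd1 hdk M' N q hq hqp' (by rw [← he]; exact h2)
    refine h1.trans ?_
    apply mul_le_mul_of_nonneg_right _ (by positivity)
    have hL1 : (1 : ℝ) ≤ L j := (Real.one_le_rpow hp1.le (by positivity)).trans hL
    have h5 : (L j : ℝ) / q ≤ L j := div_le_self (by positivity) hqR
    linarith [hN2.2]
  refine (prod_le_prod (fun j _ => norm_nonneg _) (fun j _ => hB j)).trans ?_
  rw [prod_mul_distrib, prod_mul_distrib, prod_const, prod_const, card_univ, Fintype.card_fin]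
  have hV0 : 0 ≤ ∏ j, (L j : ℝ) := prod_nonneg fun j _ => Nat.cast_nonneg _
  have h1 : ((p : ℝ) ^ (-η)) ^ r ≤ (p : ℝ) ^ (-((m : ℝ) + 2)) := by
    rw [← Real.rpow_natCast, ← Real.rpow_mul hp0.le]
    apply hmono
    linarith
  calc (2 : ℝ) ^ r * (∏ j, (L j : ℝ)) * ((p : ℝ) ^ (-η)) ^ r
      ≤ p * (∏ j, (L j : ℝ)) * (p : ℝ) ^ (-((m : ℝ) + 2)) := by gcongr
    _ = (∏ j, (L j : ℝ)) * ((p : ℝ) ^ (1 : ℝ) * (p : ℝ) ^ (-((m : ℝ) + 2))) := by
        rw [Real.rpow_one]; ring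
    _ = (∏ j, (L j : ℝ)) * (p : ℝ) ^ (-((m : ℝ) + 1)) := by
        rw [← Real.rpow_add hp0]
        congr 2
        ring
    _ ≤ (∏ j, (L j : ℝ)) * (p : ℝ) ^ (-((m : ℝ) + δ)) := by
        apply mul_le_mul_of_nonneg_left _ hV0
        exact hmono _ _ (by linarith)

end Pool.Agent.U642.WP
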