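import Pool.Agent.N542.PT.Loc
import Pool.Agent.W147.PS.Scale

set_option autoImplicit false

/-! # The criterion for balanced families with a count -/

namespace Pool.Agent.U642.WP

open Finset Filter
open Pool.Agent.W147.PS (ff ff_compare ev_pow)
open Pool.Agent.N542.PT (Crit WellDist Good)

open scoped Classical in
/-- **the criterion with a count**: a finite family of vectors of integers which is equidistributed in the
residue classes of the moduli up to a small power of `P` has at least `P ^ (-δ)` times its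
number of members at which all the polynomials `F j` are far from the integers without prime
factors `≤ P ^ δ`. -/
theorem crit_cnt {ι : Type} (r : ℕ) (F : ι → MvPolynomial (Fin r) ℤ) (hF : Crit r F)
    (δ : ℝ) (hδ : 0 < δ) (hδ1 : δ ≤ 1) :
    ∃ κ : ℝ, 0 < κ ∧ ∀ᶠ P : ℝ in atTop,
    ∀ (α : Type) (s : Finset α) (v : α → Fin r → ℤ),
    (∀ q : ℕ, 1 ≤ q → (q : ℝ) ≤ P ^ (δ / (4 * r + 4)) → ∀ ρ : Fin r → ℤ,
      |((s.filter (fun i => ∀ j, (q : ℤ) ∣ v i j - ρ j)).card : ℝ) - s.card / (q : ℝ) ^ r| ≤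
        s.card * P ^ (-δ)) →
    P ^ (-δ) * s.card ≤
      ((s.filter (fun i => Good F (κ * ff P) (P ^ δ) (v i))).card : ℝ) := by
  obtain ⟨κ, hκ, X₀, hc⟩ := hF
  set θ : ℝ := δ / (4 * r + 4) with hθ
  have hr0 : (0 : ℝ) ≤ r := Nat.cast_nonneg _
  have hθ0 : 0 < θ := by positivity
  have hθe : θ * (4 * r + 4) = δ := by rw [hθ]; field_simp
  have hθδ : θ ≤ δ := by nlinarith
  have hθ1 : θ ≤ 1 := hθδ.trans hδ1
  refine ⟨κ * (θ / 32), by positivity, ?_⟩
  filter_upwards [ff_compare θ hθ0 hθ1, (tendsto_rpow_atTop hθ0).eventually_ge_atTop (max X₀ 1),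
    eventually_gt_atTop (1 : ℝ), ev_pow (-δ) (-((r + 1) * θ)) 8 (by nlinarith)]
    with P g1 g2 g3 g7
  intro α s v heq
  replace g1 := g1.2
  have hp0 : (0 : ℝ) < P := by linarith
  have hmono : ∀ x y : ℝ, x ≤ y → P ^ x ≤ P ^ y := fun x y h =>
    Real.rpow_le_rpow_of_exponent_le g3.le h
  set X : ℝ := P ^ θ with hX
  have hX0 : X₀ ≤ X := (le_max_left _ _).trans g2
  have hX1 : 1 ≤ X := (le_max_right _ _).trans g2
  have hc2 := hc X hX0
  have hXδ : X ≤ P ^ δ := hmono _ _ hθδ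
  have hγe : X ^ (-((r : ℝ) + 1)) = P ^ (-((r + 1) * θ)) := by
    rw [hX, ← Real.rpow_mul hp0.le]
    congr 1
    ring
  have hγ1 : X ^ (-((r : ℝ) + 1)) ≤ 1 := Real.rpow_le_one_of_one_le_of_nonpos hX1 (by linarith)
  set good : α → Prop := fun z => Good F (κ * (θ / 32) * ff P) (P ^ δ) (v z) with hgood
  set T : ℝ := (s.card : ℝ) with hT
  set g : ℝ := ((s.filter good).card : ℝ) with hg
  by_contra hlt
  push Not at hlt
  have hg0 : 0 ≤ g := Nat.cast_nonneg _
  have hpδ : 8 * P ^ (-δ) ≤ X ^ (-((r : ℝ) + 1)) := by rw [hγe]; exact g7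
  have hPδ0 : 0 < P ^ (-δ) := Real.rpow_pos_of_pos hp0 _
  have hT0 : 0 < T := by
    by_contra h0
    push Not at h0
    nlinarith
  have hgT2 : g ≤ T / 8 := by
    have h1 : P ^ (-δ) * T ≤ X ^ (-((r : ℝ) + 1)) / 8 * T :=
      mul_le_mul_of_nonneg_right (by linarith) hT0.le
    have h2 : X ^ (-((r : ℝ) + 1)) / 8 * T ≤ 1 / 8 * T :=
      mul_le_mul_of_nonneg_right (by linarith) hT0.le
    linarith
  set s' := s.filter (fun z => ¬ good z) with hs'
  have hsplit : ∀ (Q : α → Prop) [DecidablePred Q],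
      ((s'.filter Q).card : ℝ) =
      ((s.filter Q).card : ℝ) - (((s.filter good).filter Q).card : ℝ) := by
    intro Q _
    have h1 : s'.filter Q = (s.filter Q).filter (fun z => ¬ good z) := by
      rw [hs', filter_comm]
    have h2 : (s.filter good).filter Q = (s.filter Q).filter good := filter_comm _ _ _
    rw [h1, h2]
    have h3 := card_filter_add_card_filter_not (s := s.filter Q) good
    have h4 : ((((s.filter Q).filter good).card : ℝ)) +
        (((s.filter Q).filter (fun z => ¬ good z)).card : ℝ) = ((s.filter Q).card : ℝ) := by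
      exact_mod_cast h3
    linarith
  have hs'card : (s'.card : ℝ) = T - g := by
    have := hsplit (fun _ => True)
    simpa [hT, hg] using this
  have hne : s'.Nonempty := by
    rw [← card_pos]
    have : (0 : ℝ) < s'.card := by
      rw [hs'card]
      linarith
    exact_mod_cast this
  obtain ⟨z, hz, hz2⟩ := hc2 _ s' v hne (by
    intro q hq hqX ρ
    have hqR : (1 : ℝ) ≤ (q : ℝ) ^ r := one_le_pow₀ (by exact_mod_cast hq)
    rw [hsplit, hs'card]
    have h1 := heq q hq hqX ρ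
    have h2 : ((((s.filter good).filter (fun z => ∀ j, (q : ℤ) ∣ v z j - ρ j)).card : ℕ) : ℝ) ≤ g := by
      rw [hg]
      exact_mod_cast card_le_card (filter_subset _ _)
    have h3 : 0 ≤ ((((s.filter good).filter (fun z => ∀ j, (q : ℤ) ∣ v z j - ρ j)).card : ℕ) : ℝ) :=
      Nat.cast_nonneg _
    have h4 : (T - g) / (q : ℝ) ^ r = T / (q : ℝ) ^ r - g / (q : ℝ) ^ r := sub_div _ _ _
    have h5 : g / (q : ℝ) ^ r ≤ g := div_le_self hg0 hqR
    have h6 : 0 ≤ g / (q : ℝ) ^ r := by positivity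
    have h7 : (T - g) * X ^ (-((r : ℝ) + 1)) ≥ T / 2 * X ^ (-((r : ℝ) + 1)) := by
      apply mul_le_mul_of_nonneg_right _ (by positivity)
      linarith
    have h8 : T / 2 * X ^ (-((r : ℝ) + 1)) ≥ T / 2 * (8 * P ^ (-δ)) :=
      mul_le_mul_of_nonneg_left hpδ (by positivity)
    rw [h4]
    have h9 := abs_le.mp h1
    have h10 : g ≤ P ^ (-δ) * T := hlt.le
    rw [abs_le]
    constructor
    · nlinarith [h9.1]
    · nlinarith [h9.2])
  rw [hs', mem_filter] at hz
  apply hz.2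
  intro j n hn
  have hXsq : X ≤ P ^ 2 := by
    calc X ≤ P ^ (1 : ℝ) := hmono _ _ hθ1
      _ = P := Real.rpow_one _
      _ ≤ P ^ 2 := by nlinarith
  obtain ⟨f1, -, -⟩ := g1 X le_rfl hXsq
  obtain ⟨l, hl, hl2, hl3⟩ := hz2 j n (hn.trans (by
    calc κ * (θ / 32) * ff P = κ * (θ / 32 * ff P) := by ring
      _ ≤ κ * ff X := mul_le_mul_of_nonneg_left f1 hκ.le))
  refine ⟨l, hl, hl2.trans ?_, hl3⟩
  calc X ^ (1 / 10 : ℝ) ≤ X ^ (1 : ℝ) := Real.rpow_le_rpow_of_exponent_le hX1 (by norm_num)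
    _ = X := Real.rpow_one X
    _ ≤ P ^ δ := hXδ

end Pool.Agent.U642.WP
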