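import Pool.Agent.N647.FG.AP
import Pool.Agent.U642.WP.Cnt

set_option autoImplicit false

/-! # The number of the solutions of a system of congruences in a box of progressions -/

namespace Pool.Agent.U642.WP

open Finset Polynomial Filter
open Pool.Agent.N647.FG (AP AP_one AP_card AP_eq AP_ends)
open Pool.Agent.W147.PS (ff ev_pow)
open Pool.Agent.N542.PT (Crit WellDist Good)

section

variable {p : ℕ} [Fact p.Prime]

/-- the combination `∑ t i * g i j` of the polynomials of the variable `j` -/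
noncomputable def comb {m r : ℕ} (g : Fin m → Fin r → (ZMod p)[X]) (t : Fin m → ZMod p)
    (j : Fin r) : (ZMod p)[X] := ∑ i, C (t i) * g i j

open scoped Classical in
/-- the solutions of `∑ j, g i j (x j) = a i` with `x j ∈ A j` -/
noncomputable def sol {m r : ℕ} (g : Fin m → Fin r → (ZMod p)[X]) (a : Fin m → ZMod p)
    (A : Fin r → Finset ℤ) : Finset (Fin r → ℤ) :=
  (Fintype.piFinset A).filter (fun x => ∀ i, ∑ j, (g i j).eval ((x j : ℤ) : ZMod p) = a i)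

lemma psi_sum {α : Type} (s : Finset α) (f : α → ZMod p) :
    (ZMod.stdAddChar (∑ i ∈ s, f i) : ℂ) = ∏ i ∈ s, (ZMod.stdAddChar (f i) : ℂ) := by
  classical
  induction s using Finset.induction_on with
  | empty => simp
  | insert a s ha ih => rw [sum_insert ha, prod_insert ha, AddChar.map_add_eq_mul, ih]

lemma orth {m : ℕ} (v : Fin m → ZMod p) :
    ∑ t : Fin m → ZMod p, (ZMod.stdAddChar (∑ i, t i * v i) : ℂ) =
      if v = 0 then (p : ℂ) ^ m else 0 := by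
  classical
  have h1 : ∀ t : Fin m → ZMod p, (ZMod.stdAddChar (∑ i, t i * v i) : ℂ) =
      ∏ i, (ZMod.stdAddChar (t i * v i) : ℂ) := fun t => psi_sum _ _
  rw [sum_congr rfl fun t _ => h1 t]
  have h2 := Finset.prod_univ_sum (fun _ : Fin m => (univ : Finset (ZMod p)))
    (fun i x => (ZMod.stdAddChar (x * v i) : ℂ))
  rw [Fintype.piFinset_univ] at h2
  rw [← h2]
  have h3 : ∀ i, ∑ x : ZMod p, (ZMod.stdAddChar (x * v i) : ℂ) = if v i = 0 then (p : ℂ) else 0 := by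
    intro i
    have := AddChar.sum_mulShift (v i) (ZMod.isPrimitive_stdAddChar p)
    rw [this, ZMod.card]
    split_ifs <;> simp
  rw [prod_congr rfl fun i _ => h3 i]
  by_cases hv : v = 0
  · rw [if_pos hv, hv]
    simp
  · rw [if_neg hv]
    obtain ⟨i, hi⟩ : ∃ i, v i ≠ 0 := by
      by_contra hcon
      push Not at hcon
      exact hv (funext hcon)
    apply prod_eq_zero (mem_univ i)
    rw [if_neg hi]

/-- the number of the solutions in a box of sets -/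
lemma sol_count {m r : ℕ} (g : Fin m → Fin r → (ZMod p)[X]) (a : Fin m → ZMod p)
    (A : Fin r → Finset ℤ) (E : ℝ) (hE0 : 0 ≤ E)
    (hE : ∀ t : Fin m → ZMod p, t ≠ 0 →
      ∏ j, ‖∑ x ∈ A j, (ZMod.stdAddChar ((comb g t j).eval ((x : ℤ) : ZMod p)) : ℂ)‖ ≤ E) :
    |((sol g a A).card : ℝ) - (∏ j, ((A j).card : ℝ)) / (p : ℝ) ^ m| ≤ E := by
  classical
  have hp : p.Prime := Fact.out
  have hp0 : (0 : ℝ) < p := by exact_mod_cast hp.pos
  have hpc : (p : ℂ) ≠ 0 := by exact_mod_cast hp.ne_zero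
  -- the sum over the frequencies
  have h1 : ((sol g a A).card : ℂ) * (p : ℂ) ^ m = ∑ t : Fin m → ZMod p,
      (ZMod.stdAddChar (-∑ i, t i * a i) : ℂ) *
        ∏ j, ∑ x ∈ A j, (ZMod.stdAddChar ((comb g t j).eval ((x : ℤ) : ZMod p)) : ℂ) := by
    have e1 : ((sol g a A).card : ℂ) * (p : ℂ) ^ m = ∑ x ∈ Fintype.piFinset A,
        ∑ t : Fin m → ZMod p, (ZMod.stdAddChar
          (∑ i, t i * (∑ j, (g i j).eval ((x j : ℤ) : ZMod p) - a i)) : ℂ) := by
      unfold sol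
      rw [card_filter, Nat.cast_sum, sum_mul]
      refine sum_congr rfl fun x _ => ?_
      rw [orth]
      have e2 : ((fun i => ∑ j, (g i j).eval ((x j : ℤ) : ZMod p) - a i) = 0) ↔
          ∀ i, ∑ j, (g i j).eval ((x j : ℤ) : ZMod p) = a i := by
        rw [funext_iff]
        simp only [Pi.zero_apply, sub_eq_zero]
      by_cases hx : ∀ i, ∑ j, (g i j).eval ((x j : ℤ) : ZMod p) = a i
      · rw [if_pos hx, if_pos (e2.2 hx)]
        push_cast
        ring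
      · rw [if_neg hx, if_neg (fun h => hx (e2.1 h))]
        push_cast
        ring
    rw [e1, sum_comm]
    refine sum_congr rfl fun t _ => ?_
    rw [Finset.prod_univ_sum, mul_sum]
    refine sum_congr rfl fun x _ => ?_
    rw [← psi_sum, ← AddChar.map_add_eq_mul]
    congr 1
    have e3 : ∀ j, (comb g t j).eval ((x j : ℤ) : ZMod p) =
        ∑ i, t i * (g i j).eval ((x j : ℤ) : ZMod p) := by
      intro j
      unfold comb
      rw [eval_finsetSum]
      refine sum_congr rfl fun i _ => ?_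
      rw [eval_mul, eval_C]
    rw [sum_congr rfl fun j _ => e3 j, sum_comm, neg_add_eq_sub, ← sum_sub_distrib]
    refine sum_congr rfl fun i _ => ?_
    rw [mul_sub, mul_sum]
  have h2 : ((sol g a A).card : ℂ) * (p : ℂ) ^ m - ((∏ j, ((A j).card : ℝ) : ℝ) : ℂ) =
      ∑ t ∈ (univ : Finset (Fin m → ZMod p)).erase 0, (ZMod.stdAddChar (-∑ i, t i * a i) : ℂ) *
        ∏ j, ∑ x ∈ A j, (ZMod.stdAddChar ((comb g t j).eval ((x : ℤ) : ZMod p)) : ℂ) := by
    rw [h1, ← add_sum_erase univ _ (mem_univ (0 : Fin m → ZMod p))]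
    have e1 : ∀ j, ∑ x ∈ A j, (ZMod.stdAddChar ((comb g 0 j).eval ((x : ℤ) : ZMod p)) : ℂ) =
        ((A j).card : ℂ) := by
      intro j
      have : comb g (0 : Fin m → ZMod p) j = 0 := by
        unfold comb
        apply sum_eq_zero
        intro i _
        simp
      rw [this]
      simp
    rw [prod_congr rfl fun j _ => e1 j]
    simp
  have h3 : ‖((sol g a A).card : ℂ) * (p : ℂ) ^ m - ((∏ j, ((A j).card : ℝ) : ℝ) : ℂ)‖ ≤
      (p : ℝ) ^ m * E := by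
    rw [h2]
    refine (norm_sum_le _ _).trans ?_
    have e1 : ∀ t ∈ (univ : Finset (Fin m → ZMod p)).erase 0,
        ‖(ZMod.stdAddChar (-∑ i, t i * a i) : ℂ) *
        ∏ j, ∑ x ∈ A j, (ZMod.stdAddChar ((comb g t j).eval ((x : ℤ) : ZMod p)) : ℂ)‖ ≤ E := by
      intro t ht
      rw [norm_mul, AddChar.norm_apply, one_mul, norm_prod]
      exact hE t (ne_of_mem_erase ht)
    refine (sum_le_sum e1).trans ?_
    rw [sum_const, nsmul_eq_mul]
    apply mul_le_mul_of_nonneg_right _ hE0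
    have e2 : (((univ : Finset (Fin m → ZMod p)).erase 0).card : ℝ) ≤
        ((univ : Finset (Fin m → ZMod p)).card : ℝ) := by
      exact_mod_cast card_le_card (erase_subset _ _)
    refine e2.trans (le_of_eq ?_)
    rw [card_univ, Fintype.card_fun, ZMod.card, Fintype.card_fin]
    push_cast
    rfl
  have h4 : ((sol g a A).card : ℂ) * (p : ℂ) ^ m - ((∏ j, ((A j).card : ℝ) : ℝ) : ℂ) =
      ((((sol g a A).card : ℝ) * (p : ℝ) ^ m - ∏ j, ((A j).card : ℝ) : ℝ) : ℂ) := by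
    push_cast
    ring
  rw [h4, Complex.norm_real, Real.norm_eq_abs] at h3
  have hpm : (0 : ℝ) < (p : ℝ) ^ m := by positivity
  have h5 : ((sol g a A).card : ℝ) - (∏ j, ((A j).card : ℝ)) / (p : ℝ) ^ m =
      (((sol g a A).card : ℝ) * (p : ℝ) ^ m - ∏ j, ((A j).card : ℝ)) / (p : ℝ) ^ m := by
    field_simp
  rw [h5, abs_div, abs_of_pos hpm, div_le_iff₀ hpm, mul_comm E]
  exact h3

end

lemma prod_pert {κ : Type} (s : Finset κ) (N B : κ → ℝ) (η : ℝ) (h0 : 0 ≤ η) (h1 : η ≤ 1)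
    (hB : ∀ j ∈ s, 0 ≤ B j) (hN : ∀ j ∈ s, |N j - B j| ≤ η * B j) :
    |∏ j ∈ s, N j - ∏ j ∈ s, B j| ≤ (2 ^ s.card - 1) * η * ∏ j ∈ s, B j := by
  classical
  induction s using Finset.induction_on with
  | empty => simp
  | insert a s ha ih =>
    have ih' := ih (fun j hj => hB j (mem_insert_of_mem hj)) (fun j hj => hN j (mem_insert_of_mem hj))
    rw [prod_insert ha, prod_insert ha, card_insert_of_notMem ha]
    have hBa := hB a (mem_insert_self _ _)
    have hNa := hN a (mem_insert_self _ _)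
    have hB0 : 0 ≤ ∏ j ∈ s, B j := prod_nonneg fun j hj => hB j (mem_insert_of_mem hj)
    set b := ∏ j ∈ s, B j
    set n := ∏ j ∈ s, N j
    have h2 : (1 : ℝ) ≤ 2 ^ s.card := one_le_pow₀ (by norm_num)
    have h3 : |n| ≤ 2 ^ s.card * b := by
      have h4 : |n| ≤ |n - b| + |b| := by
        have := abs_add_le (n - b) b
        rwa [sub_add_cancel] at this
      rw [abs_of_nonneg hB0] at h4
      have h5 : (2 ^ s.card - 1) * η * b ≤ (2 ^ s.card - 1) * 1 * b := by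
        apply mul_le_mul_of_nonneg_right _ hB0
        apply mul_le_mul_of_nonneg_left h1 (by linarith)
      linarith
    have e : N a * n - B a * b = (N a - B a) * n + B a * (n - b) := by ring
    rw [e]
    refine (abs_add_le _ _).trans ?_
    rw [abs_mul, abs_mul, abs_of_nonneg hBa]
    calc |N a - B a| * |n| + B a * |n - b|
        ≤ (η * B a) * (2 ^ s.card * b) + B a * ((2 ^ s.card - 1) * η * b) := by
          gcongr
      _ = _ := by ring

open scoped Classical in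
/-- **Systems of congruences with small exponential sums over progressions.** -/
theorem main_of {ι : Type} (r m : ℕ) (F : ι → MvPolynomial (Fin r) ℤ) (hF : Crit r F)
    (δ : ℝ) (hδ : 0 < δ) (hδ1 : δ ≤ 1) :
    ∃ κ : ℝ, 0 < κ ∧ ∀ᶠ P : ℝ in atTop, ∀ (p : ℕ) [Fact p.Prime], (p : ℝ) = P →
    ∀ (g : Fin m → Fin r → (ZMod p)[X]) (a : Fin m → ZMod p) (M : Fin r → ℤ) (L : Fin r → ℕ),
    (∀ j, (p : ℝ) ^ δ ≤ L j) →
    (∀ q : ℕ, 1 ≤ q → (q : ℝ) ≤ (p : ℝ) ^ (δ / 4) → ∀ ρ : Fin r → ℤ, ∀ t : Fin m → ZMod p, t ≠ 0 →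
      ∏ j, ‖∑ x ∈ AP (M j) (L j) q (ρ j),
        (ZMod.stdAddChar ((comb g t j).eval ((x : ℤ) : ZMod p)) : ℂ)‖ ≤
      (∏ j, (L j : ℝ)) * (p : ℝ) ^ (-((m : ℝ) + δ))) →
    (∏ j, (L j : ℝ)) / (p : ℝ) ^ ((m : ℝ) + δ) ≤
      (((sol g a (fun j => Ioc (M j) (M j + L j))).filter
        (fun x => Good F (κ * ff p) ((p : ℝ) ^ δ) x)).card : ℝ) := by
  obtain ⟨δ₂, hδ₂⟩ : ∃ δ₂ : ℝ, δ₂ = δ / 4 := ⟨_, rfl⟩
  have hδ₂0 : 0 < δ₂ := by rw [hδ₂]; positivity
  obtain ⟨κ, hκ, hcrit⟩ := crit_cnt r F hF δ₂ hδ₂0 (by linarith)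
  refine ⟨κ, hκ, ?_⟩
  obtain ⟨θ, hθ⟩ : ∃ θ : ℝ, θ = δ₂ / (4 * r + 4) := ⟨_, rfl⟩
  have hr0 : (0 : ℝ) ≤ r := Nat.cast_nonneg _
  have hθ0 : 0 < θ := by rw [hθ]; positivity
  have hθe : θ * (4 * r + 4) = δ₂ := by rw [hθ]; field_simp
  have hθ1 : θ ≤ δ₂ / 4 := by nlinarith
  rw [← hθ] at hcrit
  filter_upwards [hcrit, ev_pow (θ - δ) (-δ₂) (8 * 2 ^ r) (by linarith),
    ev_pow (-δ) (-δ₂) 8 (by linarith), ev_pow δ₂ δ 2 (by linarith),
    ev_pow (θ - δ) 0 1 (by linarith), eventually_gt_atTop (1 : ℝ)] with P g2 g3 g4 g5 g6 g7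
  intro p hp hpP g a M L hL hexp
  subst hpP
  have hp' : p.Prime := Fact.out
  have hp1 : (1 : ℝ) < p := g7
  have hp0 : (0 : ℝ) < p := by linarith
  have hmono : ∀ x y : ℝ, x ≤ y → (p : ℝ) ^ x ≤ (p : ℝ) ^ y := fun x y h =>
    Real.rpow_le_rpow_of_exponent_le hp1.le h
  have hL0 : ∀ j, (0 : ℝ) < L j := fun j => (Real.rpow_pos_of_pos hp0 _).trans_le (hL j)
  obtain ⟨V, hV⟩ : ∃ V : ℝ, V = ∏ j, (L j : ℝ) := ⟨_, rfl⟩
  have hV0 : 0 < V := by rw [hV]; exact prod_pos fun j _ => hL0 j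
  have hpm : (0 : ℝ) < (p : ℝ) ^ m := by positivity
  obtain ⟨A, hA⟩ : ∃ A : ℝ, A = V / (p : ℝ) ^ m := ⟨_, rfl⟩
  have hA0 : 0 < A := by rw [hA]; positivity
  have hpδ₂ : 0 < (p : ℝ) ^ (-δ₂) := Real.rpow_pos_of_pos hp0 _
  have hsmall : (p : ℝ) ^ (-δ₂) ≤ 1 :=
    Real.rpow_le_one_of_one_le_of_nonpos hp1.le (by linarith)
  have hEA : V * (p : ℝ) ^ (-((m : ℝ) + δ)) = A * (p : ℝ) ^ (-δ) := by
    rw [hA, neg_add, Real.rpow_add hp0, Real.rpow_neg hp0.le, Real.rpow_natCast]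
    field_simp
  rw [← hV] at hexp ⊢
  -- the count in progressions
  have key : ∀ q : ℕ, 1 ≤ q → (q : ℝ) ≤ (p : ℝ) ^ θ → ∀ ρ : Fin r → ℤ,
      |((sol g a (fun j => AP (M j) (L j) q (ρ j))).card : ℝ) - A / (q : ℝ) ^ r| ≤
        A * ((p : ℝ) ^ (-δ₂) / 4) := by
    intro q hq hqp ρ
    have hqR : (1 : ℝ) ≤ q := by exact_mod_cast hq
    have hq0 : (0 : ℝ) < q := by linarith
    have h1 := sol_count g a (fun j => AP (M j) (L j) q (ρ j)) (V * (p : ℝ) ^ (-((m : ℝ) + δ)))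
      (by positivity) (hexp q hq (hqp.trans (hmono _ _ (by linarith))) ρ)
    obtain ⟨η, hη⟩ : ∃ η : ℝ, η = (p : ℝ) ^ (θ - δ) := ⟨_, rfl⟩
    have hη0 : 0 ≤ η := by rw [hη]; positivity
    have hη1 : η ≤ 1 := by rw [hη]; simpa using g6
    have h2 := prod_pert univ
      (fun j => ((AP (M j) (L j) q (ρ j)).card : ℝ))
      (fun j => (L j : ℝ) / q) η hη0 hη1 (fun j _ => by positivity) (fun j _ => by
        refine (AP_card (M j) (L j) q hq (ρ j)).trans ?_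
        rw [hη, mul_div_assoc', one_le_div hq0]
        calc (q : ℝ) ≤ (p : ℝ) ^ θ := hqp
          _ = (p : ℝ) ^ (θ - δ) * (p : ℝ) ^ δ := by
              rw [← Real.rpow_add hp0]; congr 1; ring
          _ ≤ (p : ℝ) ^ (θ - δ) * L j := by
              apply mul_le_mul_of_nonneg_left (hL j) (by positivity))
    rw [card_univ, Fintype.card_fin] at h2
    have e1 : ∏ j, ((L j : ℝ) / q) = V / (q : ℝ) ^ r := by
      rw [prod_div_distrib, prod_const, card_univ, Fintype.card_fin, hV]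
    rw [e1] at h2
    obtain ⟨U, hU⟩ : ∃ U : ℝ, U = ∏ j, ((AP (M j) (L j) q (ρ j)).card : ℝ) := ⟨_, rfl⟩
    rw [← hU] at h1 h2
    have hqr1 : (1 : ℝ) ≤ (q : ℝ) ^ r := one_le_pow₀ hqR
    have h3 : |U / (p : ℝ) ^ m - A / (q : ℝ) ^ r| ≤ A * ((p : ℝ) ^ (-δ₂) / 8) := by
      have e3 : U / (p : ℝ) ^ m - A / (q : ℝ) ^ r = (U - V / (q : ℝ) ^ r) / (p : ℝ) ^ m := by
        rw [hA]; field_simp
      rw [e3, abs_div, abs_of_pos hpm]
      have h4 : |U - V / (q : ℝ) ^ r| ≤ 2 ^ r * η * V := by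
        refine h2.trans ?_
        apply mul_le_mul _ (div_le_self hV0.le hqr1) (by positivity) (by positivity)
        apply mul_le_mul_of_nonneg_right _ hη0
        linarith
      have h5 : |U - V / (q : ℝ) ^ r| / (p : ℝ) ^ m ≤ (2 ^ r * η * V) / (p : ℝ) ^ m := by gcongr
      refine h5.trans ?_
      have h6 : (2 ^ r * η * V) / (p : ℝ) ^ m = A * (2 ^ r * η) := by rw [hA]; ring
      rw [h6]
      apply mul_le_mul_of_nonneg_left _ hA0.le
      rw [hη]
      linarith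
    have h4 : V * (p : ℝ) ^ (-((m : ℝ) + δ)) ≤ A * ((p : ℝ) ^ (-δ₂) / 8) := by
      rw [hEA]
      apply mul_le_mul_of_nonneg_left _ hA0.le
      linarith
    have h6 := abs_add_le (((sol g a (fun j => AP (M j) (L j) q (ρ j))).card : ℝ) - U / (p : ℝ) ^ m)
        (U / (p : ℝ) ^ m - A / (q : ℝ) ^ r)
    rw [sub_add_sub_cancel] at h6
    linarith
  -- the family
  obtain ⟨s, hs⟩ : ∃ s : Finset (Fin r → ℤ), s = sol g a (fun j => Ioc (M j) (M j + L j)) :=
    ⟨_, rfl⟩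
  have k1 := key 1 le_rfl (by simpa using Real.one_le_rpow hp1.le hθ0.le) (fun _ => 0)
  have e0 : (fun j => AP (M j) (L j) 1 ((fun _ => 0 : Fin r → ℤ) j)) =
      fun j => Ioc (M j) (M j + L j) := by
    funext j
    exact AP_one _ _ _
  rw [e0, ← hs, Nat.cast_one, one_pow, div_one] at k1
  have hscard : A / 2 ≤ (s.card : ℝ) := by
    have h1 := (abs_le.mp k1).1
    have h2 : A * ((p : ℝ) ^ (-δ₂) / 4) ≤ A * (1 / 4) := by gcongr
    linarith
  have hmain := g2 (Fin r → ℤ) s (fun x j => x j) (by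
    intro q hq hqp ρ
    have hqR : (1 : ℝ) ≤ (q : ℝ) ^ r := one_le_pow₀ (by exact_mod_cast hq)
    have k2 := key q hq hqp ρ
    have e1 : s.filter (fun i => ∀ j, (q : ℤ) ∣ i j - ρ j) =
        sol g a (fun j => AP (M j) (L j) q (ρ j)) := by
      ext x
      rw [hs]
      unfold sol AP
      simp only [mem_filter, Fintype.mem_piFinset]
      constructor
      · rintro ⟨⟨h1, h2⟩, h3⟩
        exact ⟨fun j => ⟨h1 j, h3 j⟩, h2⟩
      · rintro ⟨h1, h2⟩
        exact ⟨⟨fun j => (h1 j).1, h2⟩, fun j => (h1 j).2⟩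
    rw [e1]
    have k3 : |A / (q : ℝ) ^ r - s.card / (q : ℝ) ^ r| ≤ A * ((p : ℝ) ^ (-δ₂) / 4) := by
      rw [← sub_div, abs_div, abs_of_pos (show (0 : ℝ) < (q : ℝ) ^ r by linarith), abs_sub_comm]
      exact (div_le_self (abs_nonneg _) hqR).trans k1
    have k4 := abs_add_le (((sol g a (fun j => AP (M j) (L j) q (ρ j))).card : ℝ) - A / (q : ℝ) ^ r)
      (A / (q : ℝ) ^ r - s.card / (q : ℝ) ^ r)
    rw [sub_add_sub_cancel] at k4
    have k5 : A / 2 * (p : ℝ) ^ (-δ₂) ≤ s.card * (p : ℝ) ^ (-δ₂) :=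
      mul_le_mul_of_nonneg_right hscard hpδ₂.le
    linarith)
  rw [← hs]
  have hle : ((s.filter (fun i => Good F (κ * ff p) ((p : ℝ) ^ δ₂) (fun j => i j))).card : ℝ) ≤
      ((s.filter (fun x => Good F (κ * ff p) ((p : ℝ) ^ δ) x)).card : ℝ) := by
    rw [Nat.cast_le]
    apply card_le_card
    intro x hx
    rw [mem_filter] at hx ⊢
    refine ⟨hx.1, fun j n hn => ?_⟩
    obtain ⟨l, hl, hl2, hl3⟩ := hx.2 j n hn
    exact ⟨l, hl, hl2.trans (hmono _ _ (by linarith)), hl3⟩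
  refine le_trans ?_ (hmain.trans hle)
  have h1 : V / (p : ℝ) ^ ((m : ℝ) + δ) = A * (p : ℝ) ^ (-δ) := by
    rw [← hEA, Real.rpow_neg hp0.le, div_eq_mul_inv]
  rw [h1]
  have h2 : (p : ℝ) ^ (-δ) ≤ (p : ℝ) ^ (-δ₂) / 2 := by
    have h3 : 0 < (p : ℝ) ^ (-δ) := Real.rpow_pos_of_pos hp0 _
    linarith
  calc A * (p : ℝ) ^ (-δ) ≤ A * ((p : ℝ) ^ (-δ₂) / 2) := mul_le_mul_of_nonneg_left h2 hA0.le
    _ = (p : ℝ) ^ (-δ₂) * (A / 2) := by ring
    _ ≤ _ := mul_le_mul_of_nonneg_left hscard hpδ₂.le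

end Pool.Agent.U642.WP
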